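import Pool.Agent.Work.MP_0403fc_an_explicit.Main

set_option autoImplicit false

open scoped ENNReal

namespace Pool.Agent.Results.MP_0403fc_an.ExplicitCriterion

open Pool.Agent.Work.MP_0403fc_an_explicit

/-- Characterization of the weighted backward shifts on `ℓ^p`, `1 ≤ p < ∞`, that possess a
frequently hypercyclic subspace. -/
theorem result {𝕜 : Type*} [RCLike 𝕜] {p : ℝ≥0∞} [Fact (1 ≤ p)] (hp : p ≠ ∞)
    (w : ℕ → 𝕜) (hw0 : ∀ n, w n ≠ 0) (hw : ∃ C : ℝ, ∀ n, ‖w n‖ ≤ C) :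
    HasFHSubspace 𝕜 (weightedShift hp w hw) ↔
      (Summable fun n => (‖wprod w n‖ ^ p.toReal)⁻¹) ∧
        ∃ δ : ℝ, 0 < δ ∧ ¬ Summable (level (wprod w) δ) :=
  main hp w hw0 hw

end Pool.Agent.Results.MP_0403fc_an.ExplicitCriterion
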